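import Pool.Agent.Y808.DR.Stm4

/-!
# DR-WQ (helper542 for helper808, job 11752): weighted equations for multiples of a prime element
-/

set_option autoImplicit false

namespace Pool.Agent.Y542.DR

open Polynomial
open Pool.Agent.Y808.DR

universe u

/-- the coefficients of a product of linear factors with integral roots are integral -/
lemma integral_coeff {A Ω : Type u} [CommRing A] [CommRing Ω] [Algebra A Ω] (M : Multiset Ω)
    (hM : ∀ r ∈ M, IsIntegral A r) (j : ℕ) : IsIntegral A ((M.map (fun r => X - C r)).prod.coeff j) := by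
  induction M using Multiset.induction_on generalizing j with
  | empty =>
    simp only [Multiset.map_zero, Multiset.prod_zero, coeff_one]
    split_ifs
    · exact isIntegral_one
    · exact isIntegral_zero
  | cons r M ih =>
    have hM' : ∀ r ∈ M, IsIntegral A r := fun r hr => hM r (Multiset.mem_cons_of_mem hr)
    rw [Multiset.map_cons, Multiset.prod_cons, sub_mul, coeff_sub, coeff_C_mul]
    refine IsIntegral.sub ?_ ((hM r (Multiset.mem_cons_self r M)).mul (ih hM' j))
    rcases j with _ | j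
    · rw [mul_coeff_zero, coeff_X_zero, zero_mul]
      exact isIntegral_zero
    · rw [coeff_X_mul]
      exact ih hM' j

/-- scaling the roots -/
lemma scale_coeff {Ω : Type u} [CommRing Ω] (M : Multiset Ω) (c : Ω) (j : ℕ) :
    (M.map (fun r => X - C (c * r))).prod.coeff j * c ^ j =
      c ^ Multiset.card M * (M.map (fun r => X - C r)).prod.coeff j := by
  induction M using Multiset.induction_on generalizing j with
  | empty =>
    simp only [Multiset.map_zero, Multiset.prod_zero, coeff_one, Multiset.card_zero, pow_zero, one_mul]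
    split_ifs with h
    · rw [h, pow_zero, one_mul]
    · rw [zero_mul]
  | cons r M ih =>
    rw [Multiset.map_cons, Multiset.prod_cons, Multiset.map_cons, Multiset.prod_cons, Multiset.card_cons, sub_mul,
      coeff_sub, coeff_C_mul, sub_mul, sub_mul, coeff_sub, coeff_C_mul]
    have h1 := ih j
    rcases j with _ | j
    · rw [mul_coeff_zero, coeff_X_zero, mul_coeff_zero, coeff_X_zero, zero_mul, zero_mul, zero_mul]
      rw [pow_zero, mul_one] at h1
      rw [pow_zero, mul_one, h1]
      ring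
    · have h2 := ih j
      rw [coeff_X_mul, coeff_X_mul]
      calc _ = c * ((M.map (fun r => X - C (c * r))).prod.coeff j * c ^ j) -
            c * r * ((M.map (fun r => X - C (c * r))).prod.coeff (j + 1) * c ^ (j + 1)) := by ring
        _ = _ := by rw [h1, h2]; ring

lemma pow_dvd {B : Type u} [CommRing B] [IsDomain B] (w : B) (hw : Prime w) (e : ℕ) (he : e ≠ 0) (i : ℕ) (a : B)
    (h : w ^ (e * i) ∣ a ^ e) : w ^ i ∣ a := by
  induction i generalizing a with
  | zero => simp
  | succ i ih =>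
    have h1 : w ∣ a ^ e := by
      refine (dvd_pow_self w ?_).trans h
      exact Nat.mul_ne_zero he (Nat.succ_ne_zero i)
    obtain ⟨a', rfl⟩ := hw.dvd_of_dvd_pow h1
    have h2 : w ^ e ≠ 0 := pow_ne_zero _ hw.ne_zero
    have h3 : w ^ e * w ^ (e * i) ∣ w ^ e * a' ^ e := by
      rw [← pow_add, ← mul_pow]
      have e1 : e + e * i = e * (i + 1) := by ring
      rw [e1]
      exact h
    have h4 := ih a' ((mul_dvd_mul_iff_left h2).1 h3)
    rw [pow_succ']
    exact mul_dvd_mul_left w h4

theorem t_WQ : S_WQ.{u} := by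
  intro A B _ _ _ _ _ _ _ hinj w hw D s g b e he hD hDw hs hgb x hx
  have : FaithfulSMul A B := (faithfulSMul_iff_algebraMap_injective A B).2 hinj
  obtain ⟨c, rfl⟩ := hx
  obtain ⟨x, hxd⟩ : ∃ x, x = w * c := ⟨_, rfl⟩
  rw [← hxd]
  obtain ⟨y, hy⟩ : ∃ y, y = b * c ^ e := ⟨_, rfl⟩
  have hDy : algebraMap A B D * y = algebraMap A B s * x ^ e := by
    rw [hDw, hy, hxd, ← hgb]
    ring
  have hxint : IsIntegral A x := Algebra.IsIntegral.isIntegral x
  have hyint : IsIntegral A y := Algebra.IsIntegral.isIntegral y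
  obtain ⟨q, hqm, hq⟩ := hyint
  obtain ⟨f, hf⟩ : ∃ f, f = minpoly A x := ⟨_, rfl⟩
  have hfm : f.Monic := by rw [hf]; exact minpoly.monic hxint
  refine ⟨f, hfm, by rw [hf]; exact minpoly.aeval A x, fun i hi => ?_⟩
  let K := FractionRing A
  let Ω := AlgebraicClosure K
  have hKΩ : Function.Injective (algebraMap K Ω) := (algebraMap K Ω).injective
  have hAΩ : Function.Injective (algebraMap A Ω) := by
    rw [IsScalarTower.algebraMap_eq A K Ω]
    exact hKΩ.comp (IsFractionRing.injective A K)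
  have hDΩ : algebraMap A Ω D ≠ 0 := by
    rw [Ne, map_eq_zero_iff _ hAΩ]
    exact hD
  have hs0 : s ≠ 0 := by
    rintro rfl
    exact hs (by rw [map_zero]; exact dvd_zero w)
  have hsΩ : algebraMap A Ω s ≠ 0 := by
    rw [Ne, map_eq_zero_iff _ hAΩ]
    exact hs0
  -- the roots
  have hroot : ∀ ρ : Ω, aeval ρ f = 0 → IsIntegral A (algebraMap A Ω s * ρ ^ e / algebraMap A Ω D) := by
    intro ρ hρ
    have h1 : aeval x ((scaleRoots q D).comp (C s * X ^ e)) = 0 := by
      rw [aeval_comp, map_mul, aeval_C, map_pow, aeval_X, ← hDy]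
      exact scaleRoots_aeval_eq_zero hq
    have h2 : f ∣ (scaleRoots q D).comp (C s * X ^ e) := by
      rw [hf]
      exact minpoly.isIntegrallyClosed_dvd hxint h1
    have h3 : aeval ρ ((scaleRoots q D).comp (C s * X ^ e)) = 0 := by
      obtain ⟨t, ht⟩ := h2
      rw [ht, map_mul, hρ, zero_mul]
    rw [aeval_comp, map_mul, aeval_C, map_pow, aeval_X] at h3
    have h4 : algebraMap A Ω s * ρ ^ e = algebraMap A Ω D * (algebraMap A Ω s * ρ ^ e / algebraMap A Ω D) := by
      rw [← mul_div_assoc, mul_div_cancel_left₀ _ hDΩ]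
    rw [h4, aeval_def, scaleRoots_eval₂_mul] at h3
    refine ⟨q, hqm, ?_⟩
    exact (mul_eq_zero.1 h3).resolve_left (pow_ne_zero _ hDΩ)
  obtain ⟨δ, hδ⟩ := IsAlgClosed.exists_pow_nat_eq (algebraMap A Ω D) (Nat.pos_of_ne_zero he)
  have hδ0 : δ ≠ 0 := by
    rintro rfl
    rw [zero_pow he] at hδ
    exact hDΩ hδ.symm
  obtain ⟨k, hk⟩ : ∃ k, k = algebraMap A Ω s / δ := ⟨_, rfl⟩
  have hk0 : k ≠ 0 := by rw [hk]; exact div_ne_zero hsΩ hδ0
  have hke : k ^ e * algebraMap A Ω D = algebraMap A Ω s ^ e := by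
    rw [hk, div_pow, hδ]
    exact div_mul_cancel₀ _ hDΩ
  obtain ⟨R, hR⟩ : ∃ R, R = (f.map (algebraMap A Ω)).roots := ⟨_, rfl⟩
  have hprod : f.map (algebraMap A Ω) = (R.map (fun r => X - C r)).prod := by
    rw [hR]
    exact (IsAlgClosed.splits _).eq_prod_roots_of_monic (hfm.map _)
  have hcard : Multiset.card R = f.natDegree := by
    rw [hR, ← (IsAlgClosed.splits _).natDegree_eq_card_roots, hfm.natDegree_map]
  have hRint : ∀ r ∈ R.map (fun r => k * r), IsIntegral A r := by
    intro r hr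
    obtain ⟨ρ, hρ, rfl⟩ := Multiset.mem_map.1 hr
    have h1 : aeval ρ f = 0 := by
      rw [hR, mem_roots ((hfm.map _).ne_zero), IsRoot.def, eval_map_algebraMap] at hρ
      exact hρ
    have h2 := hroot ρ h1
    refine IsIntegral.of_pow (Nat.pos_of_ne_zero he) ?_
    obtain ⟨e', rfl⟩ : ∃ e', e = e' + 1 := ⟨e - 1, by omega⟩
    have h3 : (k * ρ) ^ (e' + 1) = algebraMap A Ω (s ^ e') * (algebraMap A Ω s * ρ ^ (e' + 1) / algebraMap A Ω D) := by
      have h4 : k ^ (e' + 1) = algebraMap A Ω s ^ (e' + 1) / algebraMap A Ω D := by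
        rw [eq_div_iff hDΩ]
        exact hke
      rw [mul_pow, h4, map_pow]
      ring
    rw [h3]
    exact isIntegral_algebraMap.mul h2
  obtain ⟨t, ht⟩ : ∃ t, t = (R.map (fun r => X - C (k * r))).prod.coeff (f.natDegree - i) := ⟨_, rfl⟩
  have htint : IsIntegral A t := by
    rw [ht]
    have h1 := integral_coeff (A := A) (R.map (fun r => k * r)) hRint (f.natDegree - i)
    rw [Multiset.map_map] at h1
    exact h1
  have ht2 : t = k ^ i * algebraMap A Ω (f.coeff (f.natDegree - i)) := by
    have h1 := scale_coeff R k (f.natDegree - i)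
    rw [← ht, ← hprod, coeff_map, hcard] at h1
    have h2 : k ^ f.natDegree = k ^ (f.natDegree - i) * k ^ i := by
      rw [← pow_add, Nat.sub_add_cancel hi]
    rw [h2] at h1
    have h3 : k ^ (f.natDegree - i) ≠ 0 := pow_ne_zero _ hk0
    have h4 : k ^ (f.natDegree - i) * t = k ^ (f.natDegree - i) * (k ^ i * algebraMap A Ω (f.coeff (f.natDegree - i))) := by
      rw [← mul_assoc, ← h1]
      ring
    exact mul_left_cancel₀ h3 h4
  obtain ⟨a, ha⟩ : ∃ a, a = f.coeff (f.natDegree - i) := ⟨_, rfl⟩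
  rw [← ha] at ht2 ⊢
  -- descend to `A`
  have hte : algebraMap A Ω (D ^ i) * t ^ e = algebraMap A Ω (s ^ (e * i) * a ^ e) := by
    have h1 : (k ^ i) ^ e * algebraMap A Ω D ^ i = (algebraMap A Ω s ^ e) ^ i := by
      rw [← hke, ← pow_mul, mul_pow, ← pow_mul, mul_comm e i]
    rw [ht2, map_mul, map_pow, map_pow, map_pow, mul_pow, pow_mul, ← h1]
    ring
  have hDK : algebraMap A K (D ^ i) ≠ 0 := by
    rw [Ne, map_eq_zero_iff _ (IsFractionRing.injective A K)]
    exact pow_ne_zero _ hD
  have hκ : algebraMap K Ω (algebraMap A K (s ^ (e * i) * a ^ e) / algebraMap A K (D ^ i)) = t ^ e := by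
    rw [map_div₀, ← IsScalarTower.algebraMap_apply, ← IsScalarTower.algebraMap_apply, ← hte]
    have h1 : algebraMap A Ω (D ^ i) ≠ 0 := by
      rw [Ne, map_eq_zero_iff _ hAΩ]
      exact pow_ne_zero _ hD
    exact mul_div_cancel_left₀ _ h1
  have hκint : IsIntegral A (algebraMap A K (s ^ (e * i) * a ^ e) / algebraMap A K (D ^ i)) := by
    rw [← isIntegral_algebraMap_iff hKΩ, hκ]
    exact htint.pow e
  obtain ⟨c', hc'⟩ := IsIntegrallyClosed.isIntegral_iff.1 hκint
  have hfin : c' * D ^ i = s ^ (e * i) * a ^ e := by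
    apply IsFractionRing.injective A K
    rw [map_mul, hc']
    exact div_mul_cancel₀ _ hDK
  -- divisibility in `B`
  have h1 : w ^ (e * i) ∣ algebraMap A B s ^ (e * i) * algebraMap A B a ^ e := by
    have h2 := congrArg (algebraMap A B) hfin
    rw [map_mul, map_mul, map_pow, map_pow, map_pow, hDw] at h2
    rw [← h2]
    refine Dvd.dvd.mul_left ?_ _
    rw [mul_pow, ← pow_mul]
    exact dvd_mul_right _ _
  have h2 : ¬ w ∣ algebraMap A B s ^ (e * i) := fun h => hs (hw.dvd_of_dvd_pow h)
  have h3 := hw.pow_dvd_of_dvd_mul_left _ h2 h1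
  have h4 := pow_dvd w hw e he i _ h3
  rw [mul_one, Ideal.span_singleton_pow, Ideal.mem_span_singleton]
  exact h4

end Pool.Agent.Y542.DR
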